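import Mathlib
import Pool.Agent.H8.GG.Defs
import Pool.Agent.H8.GG.ProdFull

set_option autoImplicit false

namespace Pool.Agent.Results.MP_8a2df8_gt.Full

open Pool.Agent.H8.GG

universe u v

theorem result (X : Type u) (K : Type v) [TopologicalSpace X] [T35Space X] [TopologicalSpace K]
    [T2Space K] [CompactSpace K] :
    (Grothendieck X → Grothendieck (X × K)) ∧
    (WeaklyGrothendieck X → WeaklyGrothendieck (X × K)) :=
  ⟨prod_full X K, prod_thm X K⟩

end Pool.Agent.Results.MP_8a2df8_gt.Full
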