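import Mathlib
import Pool.Agent.H8.GG.Defs
import Pool.Agent.H8.GG.ProdMain

set_option autoImplicit false

namespace Pool.Agent.Results.MP_8a2df8_gt.WeakProd

open Pool.Agent.H8.GG

universe u v

theorem result (X : Type u) (K : Type v) [TopologicalSpace X] [T35Space X] [TopologicalSpace K]
    [T2Space K] [CompactSpace K] (hX : WeaklyGrothendieck X) : WeaklyGrothendieck (X × K) :=
  prod_thm X K hX

end Pool.Agent.Results.MP_8a2df8_gt.WeakProd
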